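import Pool.Agent.Lib.MP_6fc7d9_pr.SetB

/-!
The critical two-point function of long-range percolation summed over an arbitrary finite set, for
every kernel as in the problem, when `3 α ≠ d`.
-/

namespace Pool.Agent.Results.MP_6fc7d9_pr.SetBound
open Pool.Agent.Lib.MP_6fc7d9_pr

theorem result (d : ℕ) (α c : ℝ) (hα : 0 < α) (hd : α < d) (h3 : 3 * α ≠ d) (hc : 0 < c)
    (J : Sym2 (Fin d → ℤ) → ℝ) (hJ0 : ∀ e, 0 ≤ J e)
    (hinv : ∀ x y, J s(x, y) = J s(0, y - x))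
    (hsum : Summable fun y => J s(0, y))
    (hlow : ∀ x y, x ≠ y →
      c * euc (fun i => ((x i - y i : ℤ) : ℝ)) ^ (-((d : ℝ) + α)) ≤ J s(x, y)) :
    ∃ βc : ℝ, IsGLB (supercrit J) βc ∧ ∃ C : ℝ,
      ∀ T : Finset (Fin d → ℤ), ∑ x ∈ T, twoPt J βc x ≤ C * (T.card : ℝ) ^ (α / d) :=
  setb_main hα hd h3 hc ⟨hJ0, hinv, hsum, hlow⟩

end Pool.Agent.Results.MP_6fc7d9_pr.SetBound
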