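import Pool.Agent.Lib.MP_6fc7d9_pr.WMain

/-!
Critical Fourier bound for long-range percolation on the integer lattice in every dimension for
`α < 1`, for two-sided kernels of bounded variation.
-/

namespace Pool.Agent.Results.MP_6fc7d9_pr.SmallAlphaFourier
open MeasureTheory Pool.Agent.Lib.MP_6fc7d9_pr

theorem result (d : ℕ) (α c A : ℝ) (hd : 1 ≤ d) (hα : 0 < α) (hα1 : α < 1) (hc : 0 < c)
    (J : Sym2 (Fin d → ℤ) → ℝ) (hJ0 : ∀ e, 0 ≤ J e)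
    (hinv : ∀ x y, J s(x, y) = J s(0, y - x))
    (hsum : Summable fun y => J s(0, y))
    (hlow : ∀ x y, x ≠ y →
      c * euc (fun i => ((x i - y i : ℤ) : ℝ)) ^ (-((d : ℝ) + α)) ≤ J s(x, y))
    (hup : ∀ x : Fin d → ℤ, x ≠ 0 →
      J s(0, x) ≤ A * euc (fun i => (x i : ℝ)) ^ (-((d : ℝ) + α)))
    (hbv : ∀ (i : Fin d) (l : ℝ) (T : Finset (Fin d → ℤ)), 1 ≤ l →
      (∀ x ∈ T, l ≤ euc fun k => (x k : ℝ)) →
      ∑ x ∈ T, |J s(0, x + Pi.single i 1) - J s(0, x)| ≤ A * l ^ (-(1 + α))) :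
    ∃ βc : ℝ, IsGLB (supercrit J) βc ∧ ∃ C : ℝ, ∃ f : (Fin d → ℝ) → ℂ,
      IntegrableOn f (cube d) ∧
      (∀ x : Fin d → ℤ, (twoPt J βc x : ℂ) = ((((2 * Real.pi) ^ d)⁻¹ : ℝ) : ℂ) *
        ∫ θ in cube d, f θ * Complex.exp (-(Complex.I * ((∑ i, θ i * x i : ℝ) : ℂ)))) ∧
      ∀ θ ∈ cube d, θ ≠ 0 → ‖f θ‖ ≤ C * euc θ ^ (-α) :=
  main_reg hd hα hα1 hc ⟨hJ0, hinv, hsum, hlow⟩ hup hbv

end Pool.Agent.Results.MP_6fc7d9_pr.SmallAlphaFourier
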