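import Pool.Agent.Lib.MP_6fc7d9_pr.XMain

/-!
Level-set bound for the Fourier transform of the critical two-point function of long-range
percolation, for every kernel as in the problem, in the range `d < 3 α`.
-/

namespace Pool.Agent.Results.MP_6fc7d9_pr.WeakFourier
open MeasureTheory Pool.Agent.Lib.MP_6fc7d9_pr

theorem result (d : ℕ) (α c : ℝ) (hα : 0 < α) (hd : α < d) (h3 : d < 3 * α) (h2 : 2 * α ≠ d)
    (hc : 0 < c) (J : Sym2 (Fin d → ℤ) → ℝ) (hJ0 : ∀ e, 0 ≤ J e)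
    (hinv : ∀ x y, J s(x, y) = J s(0, y - x))
    (hsum : Summable fun y => J s(0, y))
    (hlow : ∀ x y, x ≠ y →
      c * euc (fun i => ((x i - y i : ℤ) : ℝ)) ^ (-((d : ℝ) + α)) ≤ J s(x, y)) :
    ∃ βc : ℝ, IsGLB (supercrit J) βc ∧ ∃ C : ℝ, ∃ f : (Fin d → ℝ) → ℂ,
      IntegrableOn f (cube d) ∧
      (∀ x : Fin d → ℤ, (twoPt J βc x : ℂ) = ((((2 * Real.pi) ^ d)⁻¹ : ℝ) : ℂ) *
        ∫ θ in cube d, f θ * Complex.exp (-(Complex.I * ((∑ i, θ i * x i : ℝ) : ℂ)))) ∧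
      ∀ t : ℝ, 0 < t → volume {θ ∈ cube d | t < ‖f θ‖}
        ≤ ENNReal.ofReal (C * t ^ (-min (d / α) (2 * α / (3 * α - d)))) :=
  weak_main hα hd h3 h2 hc ⟨hJ0, hinv, hsum, hlow⟩

end Pool.Agent.Results.MP_6fc7d9_pr.WeakFourier
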